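import Mathlib
import Pool.Agent.P.MP_9682d1_al.C.Glue

set_option autoImplicit false

namespace Pool.Agent.P.MP_9682d1_al.G

open Pool.Agent.P.MP_9682d1_al.C

universe u

variable {G : Type*} [Group G]

/-- left normed commutators of weight `n + 1` in `F`. -/
def V (F : Set G) : ℕ → Set G
  | 0 => F
  | n + 1 => Set.image2 cm (V F n) F

theorem V_finite {F : Set G} (h : F.Finite) : ∀ n, (V F n).Finite
  | 0 => h
  | n + 1 => (V_finite h n).image2 _ h

theorem V_image {Q : Type*} [Group Q] (f : G →* Q) (F : Set G) : ∀ n, f '' V F n = V (f '' F) n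
  | 0 => rfl
  | n + 1 => by
    rw [V, V, ← V_image f F n]
    exact Set.image_image2_distrib fun a b => map_cm f a b

theorem V_lcs (F : Set G) : ∀ n, V F n ⊆ (Subgroup.closure F).lowerCentralSeries n
  | 0 => Subgroup.subset_closure
  | n + 1 => by
    rintro _ ⟨x, hx, t, ht, rfl⟩
    exact cm_mem_lcs (V_lcs F n hx) (Subgroup.subset_closure ht)

theorem V_of_nil {F : Set G} (h : Group.IsNilpotent (Subgroup.closure F)) :
    ∃ n, ∀ w ∈ V F n, w = 1 := by
  obtain ⟨n, hn⟩ := (Subgroup.isNilpotent_iff_lowerCentralSeries _).mp h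
  exact ⟨n, fun w hw => by rw [← Subgroup.mem_bot, ← hn]; exact V_lcs F n hw⟩

theorem nil_of_V {F : Set G} {n : ℕ} (h : ∀ w ∈ V F n, w = 1) :
    Group.IsNilpotent (Subgroup.closure F) := by
  set H := Subgroup.closure F
  have hT : Subgroup.closure (H.subtype ⁻¹' F) = ⊤ := Subgroup.closure_closure_coe_preimage
  have key : ∀ m k, k + m = n → ∀ g : H, (g : G) ∈ V F k →
      g ∈ Subgroup.upperCentralSeries H m := by
    intro m
    induction m with
    | zero =>
      intro k e g hg
      rw [Subgroup.upperCentralSeries_zero, Subgroup.mem_bot, ← Subtype.coe_inj]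
      exact h _ (by rwa [← e])
    | succ m ih =>
      intro k e g hg
      exact mem_ucs_gen hT fun t ht => ih (k + 1) (by omega) _ ⟨g, hg, t, ht, rfl⟩
  refine ⟨n, ?_⟩
  rw [eq_top_iff, ← hT, Subgroup.closure_le]
  exact fun g hg => key n 0 (zero_add n) g hg

theorem nil_of_V_HP {F : Set G} (hF : F.Finite) (hE : ∀ s ∈ F, LE s) {n : ℕ}
    (h : V F n ⊆ HP G) : Group.IsNilpotent (Subgroup.closure F) := by
  set H := Subgroup.closure F with hH
  have inj : Function.Injective H.subtype := H.subtype_injective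
  let f := (QuotientGroup.mk' (HP G)).comp H.subtype
  have nil : Group.IsNilpotent f.range := by
    have e : f.range = Subgroup.closure (QuotientGroup.mk' (HP G) '' F) := by
      rw [← MonoidHom.map_closure, MonoidHom.range_comp, Subgroup.range_subtype]
    rw [e]
    refine nil_of_V (n := n) ?_
    rw [← V_image]
    rintro _ ⟨w, hw, rfl⟩
    exact (QuotientGroup.eq_one_iff w).mpr (h hw)
  have hk : (f.rangeRestrict.ker : Set H) = H.subtype ⁻¹' (HP G) := by
    ext g
    simp [f, MonoidHom.ker_rangeRestrict, MonoidHom.mem_ker]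
  have := ln_ker nil f.rangeRestrict (S := {s | LE s}) (fun x hx g => LE.cj hx g)
    (fun s hs => hs) (by rw [hk]; exact HP_ln.preimage inj)
    _ (hF.preimage inj.injOn) (fun t ht => Or.inl (LE.of_map inj (hE _ ht)))
  have h2 : Subgroup.closure (H.subtype ⁻¹' F) = ⊤ := Subgroup.closure_closure_coe_preimage
  rw [h2] at this
  exact Group.isNilpotent_top.mp this

/-- there is a quotient without Hirsch-Plotkin radical that reflects nilpotency of groups
generated by finitely many left Engel elements. -/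
theorem exists_semi (G : Type u) [Group G] : ∃ (Q : Type u) (_ : Group Q) (φ : G →* Q),
    Function.Surjective φ ∧ HP Q = ⊥ ∧ ∀ F : Set G, F.Finite → (∀ s ∈ F, LE s) →
      Group.IsNilpotent (Subgroup.closure (φ '' F)) → Group.IsNilpotent (Subgroup.closure F) := by
  let P : Set (Subgroup G) := {K | K.Normal ∧ ∀ F : Set G, F.Finite → (∀ s ∈ F, LE s) →
    ∀ n, V F n ⊆ K → Group.IsNilpotent (Subgroup.closure F)}
  obtain ⟨K, -, hK⟩ := zorn_le_nonempty₀ P (fun c hc h y hy => by
    have hd := h.directedOn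
    refine ⟨sSup c, ⟨⟨fun x hx g => ?_⟩, fun F hF hE n hn => ?_⟩, fun z hz => le_sSup hz⟩
    · obtain ⟨L, hL, hx⟩ := (Subgroup.mem_sSup_of_directedOn ⟨y, hy⟩ hd).mp hx
      exact le_sSup hL ((hc hL).1.conj_mem x hx g)
    · have : ∀ W : Set G, W.Finite → W ⊆ (sSup c : Subgroup G) → ∃ L ∈ c, W ⊆ L := by
        intro W hW
        induction W, hW using Set.Finite.induction_on with
        | empty => exact fun _ => ⟨y, hy, Set.empty_subset _⟩
        | insert _ _ ih =>
          intro hs
          rw [Set.insert_subset_iff] at hs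
          obtain ⟨L, hL, h1⟩ := ih hs.2
          obtain ⟨L', hL', h2⟩ := (Subgroup.mem_sSup_of_directedOn ⟨y, hy⟩ hd).mp hs.1
          obtain ⟨M, hM, h3, h4⟩ := hd L hL L' hL'
          exact ⟨M, hM, Set.insert_subset (h4 h2) (h1.trans h3)⟩
      obtain ⟨L, hL, h1⟩ := this _ (V_finite hF n) hn
      exact (hc hL).2 F hF hE n h1) ⊥
    ⟨inferInstance, fun F _ _ n hn => nil_of_V fun w hw => Subgroup.mem_bot.mp (hn hw)⟩
  have := hK.prop.1
  have hs := QuotientGroup.mk'_surjective K
  have R : ∀ F : Set G, F.Finite → (∀ s ∈ F, LE s) →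
      Group.IsNilpotent (Subgroup.closure (QuotientGroup.mk' K '' F)) →
      Group.IsNilpotent (Subgroup.closure F) := by
    intro F hF hE h
    obtain ⟨m, hm⟩ := V_of_nil h
    refine hK.prop.2 F hF hE m fun w hw => (QuotientGroup.eq_one_iff w).mp (hm _ ?_)
    rw [← V_image]
    exact ⟨w, hw, rfl⟩
  refine ⟨G ⧸ K, inferInstance, QuotientGroup.mk' K, hs, ?_, R⟩
  have hle : (HP (G ⧸ K)).comap (QuotientGroup.mk' K) ≤ K := by
    refine hK.le_of_ge ⟨inferInstance, fun F hF hE n hn => R F hF hE ?_⟩ fun x hx => ?_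
    · refine nil_of_V_HP (n := n) (hF.image _) ?_ ?_
      · rintro _ ⟨s, h, rfl⟩
        exact (hE s h).map hs
      · rw [← V_image]
        rintro _ ⟨w, hw, rfl⟩
        exact hn hw
    · rw [Subgroup.mem_comap, show QuotientGroup.mk' K x = 1 from
        (QuotientGroup.eq_one_iff x).mpr hx]
      exact one_mem _
  rw [eq_bot_iff]
  intro q hq
  obtain ⟨x, rfl⟩ := hs q
  exact (QuotientGroup.eq_one_iff x).mpr (hle hq)

/-- to show that a left Engel element lies in `HP` one may assume `HP = ⊥`. -/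
theorem LE.hp_of_semi {G : Type u} [Group G] {s : G} (hs : LE s)
    (H : ∀ (Q : Type u) [Group Q] (φ : G →* Q), Function.Surjective φ → HP Q = ⊥ → φ s = 1) :
    s ∈ HP G := by
  obtain ⟨Q, _, φ, hφ, h0, R⟩ := exists_semi G
  rw [mem_HP_iff]
  intro F hF hFs
  refine R F hF (fun t ht => ?_) (nil_of_V (n := 0) ?_)
  · obtain ⟨g, rfl⟩ := hFs ht
    exact hs.cj g
  · rintro _ ⟨t, ht, rfl⟩
    obtain ⟨g, rfl⟩ := hFs ht
    simp [H Q φ hφ h0]

/-- to show that a right Engel element lies in `HP` one may assume `HP = ⊥`. -/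
theorem RE.hp_of_semi {G : Type u} [Group G] {n : ℕ} {a : G} (ha : RE n a)
    (H : ∀ (Q : Type u) [Group Q] (φ : G →* Q), Function.Surjective φ → HP Q = ⊥ → φ a = 1) :
    a ∈ HP G := by
  rw [← inv_mem_iff]
  exact LE.hp_of_semi ha.le_inv fun Q _ φ hφ h0 => by rw [map_inv, H Q φ hφ h0, inv_one]

section semi

variable (h0 : HP G = ⊥)
include h0

theorem eq_one_of_ln {X : Set G} (h1 : Cj X) (h2 : LN X) {x : G} (hx : x ∈ X) : x = 1 := by
  rw [← Subgroup.mem_bot, ← h0]
  exact sub_HP h1 h2 hx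

theorem eq_one_of_good {X : Set G} (h : Good X) {x : G} (hx : x ∈ X) : x = 1 :=
  eq_one_of_ln h0 h.cj h.ln hx

theorem eq_one_of_comm {X : Set G} (h1 : Cj X) (h2 : ∀ x ∈ X, ∀ y ∈ X, Commute x y) {x : G}
    (hx : x ∈ X) : x = 1 :=
  eq_one_of_ln h0 h1 (ln_of_comm h2) hx

theorem eq_one_of_cj {x : G} (h : ∀ g : G, Commute x (g⁻¹ * x * g)) : x = 1 := by
  refine eq_one_of_comm h0 (cj_cls x) (fun u hu v hv => ?_) (self_mem_cls x)
  obtain ⟨g, rfl⟩ := exists_cj_of_cls hu hv
  obtain ⟨k, rfl⟩ := hu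
  have := comm_conj (h (k * g * k⁻¹)) k
  rwa [show k⁻¹ * ((k * g * k⁻¹)⁻¹ * x * (k * g * k⁻¹)) * k = g⁻¹ * (k⁻¹ * x * k) * g by
    group] at this

/-- an element of the group generated by a conjugation closed set `X` that commutes with `X`. -/
theorem eq_one_of_central {X : Set G} (h1 : Cj X) {z : G} (hz : z ∈ Subgroup.closure X)
    (h : ∀ x ∈ X, Commute z x) : z = 1 := by
  refine eq_one_of_cj h0 fun g => ?_
  have hN := h1.normal
  have : Subgroup.closure X ≤ Subgroup.centralizer {z} := by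
    rw [Subgroup.closure_le]
    exact fun x hx => Subgroup.mem_centralizer_singleton_iff.mpr (h x hx).symm.eq
  exact (Subgroup.mem_centralizer_singleton_iff.mp (this (cj_normal _ z hz g))).symm

end semi

end Pool.Agent.P.MP_9682d1_al.G
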