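import Mathlib
import Pool.Agent.P.MP_9682d1_al.A.Hall
import Pool.Agent.P.MP_9682d1_al.G.Semi

set_option autoImplicit false

namespace Pool.Agent.P.MP_9682d1_al.G

open Pool.Agent.P.MP_9682d1_al.C
open scoped commutatorElement

variable {G : Type*} [Group G]

theorem comm_closure_le {X N : Subgroup G} [N.Normal] {s : G} (h : ∀ x ∈ X, cm x s ∈ N) :
    ⁅X, Subgroup.closure {s}⁆ ≤ N := by
  rw [Subgroup.commutator_le]
  intro x hx z hz
  rw [bracket_eq_cm]
  exact cm_closure (T := {s}) (fun t ht => by rw [ht]; exact h _ (inv_mem hx)) (inv_mem hz)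

theorem filt {e c s : G} (hT : Subgroup.closure {e, c, s} = ⊤) (h1 : cm c s = 1)
    (h2 : cm (cm e s) s = 1) :
    (fun x => cm x s)^[5] (cm (cm (cm (cm e c) c) c) c) ∈
      (Subgroup.normalClosure {cm e s, c}).lowerCentralSeries 8 := by
  set M := Subgroup.normalClosure {cm e s, c} with hM
  have m1 : cm e s ∈ M := Subgroup.subset_normalClosure (by simp)
  have m2 : c ∈ M := Subgroup.subset_normalClosure (by simp)
  have k1 : ∀ l, cm l s ∈ M := by
    intro l
    rw [← cm_inv, inv_mem_iff]
    refine cm_closure (T := {e, c, s}) ?_ (by rw [hT]; trivial)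
    rintro t (rfl | rfl | rfl)
    · rw [← cm_inv]; exact inv_mem m1
    · exact cm_mem_right _ m2
    · simp
  let π := QuotientGroup.mk' ⁅M, M⁆
  have ab : ∀ x ∈ M, ∀ y ∈ M, Commute (π x) (π y) := by
    intro x hx y hy
    rw [← cm_eq_one, ← map_cm]
    exact (QuotientGroup.eq_one_iff _).mpr (cm_mem_lcs (n := 0) hx hy)
  have k2 : ∀ m ∈ M, cm m s ∈ ⁅M, M⁆ := by
    have hN : (M ⊓ (Subgroup.centralizer {π s}).comap π).Normal := by
      refine ⟨fun m hm l => ⟨Subgroup.Normal.conj_mem inferInstance m hm.1 l, ?_⟩⟩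
      have c1 : Commute (π m) (π s) := Subgroup.mem_centralizer_singleton_iff.mp hm.2
      have c2 := ab _ (k1 l) m hm.1
      refine Subgroup.mem_centralizer_singleton_iff.mpr (cm_eq_one.mp ?_).eq
      have : cm (π (l * m * l⁻¹)) (π s) = (π l * π m * (π l)⁻¹)⁻¹ *
          (π l * (π (cm l s) * ((π s)⁻¹ * π m * π s) * (π (cm l s))⁻¹) * (π l)⁻¹) := by
        simp only [cm, map_mul, map_inv]; group
      rw [this, cj_of_comm c1, c2.eq]; group
    have hle : M ≤ M ⊓ (Subgroup.centralizer {π s}).comap π := by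
      refine Subgroup.normalClosure_le_normal ?_
      rintro t (rfl | rfl)
      · exact ⟨m1, Subgroup.mem_centralizer_singleton_iff.mpr ((cm_eq_one.mp h2).map π).eq⟩
      · exact ⟨m2, Subgroup.mem_centralizer_singleton_iff.mpr ((cm_eq_one.mp h1).map π).eq⟩
    intro m hm
    have c1 : Commute (π m) (π s) := Subgroup.mem_centralizer_singleton_iff.mp (hle hm).2
    rw [← cm_eq_one, ← map_cm] at c1
    exact (QuotientGroup.eq_one_iff _).mp c1
  have k3 : ∀ j, ⁅M.lowerCentralSeries j, Subgroup.closure {s}⁆ ≤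
      M.lowerCentralSeries (j + 1) := by
    intro j
    induction j with
    | zero => exact comm_closure_le k2
    | succ j ih =>
      refine A.three_sub _ _ _ _ ?_ ?_
      · refine (Subgroup.commutator_mono (comm_closure_le k2) le_rfl).trans ?_
        apply A.three_sub
        · rw [Subgroup.commutator_comm M (M.lowerCentralSeries j)]; exact le_rfl
        · exact le_rfl
      · rw [Subgroup.commutator_comm (Subgroup.closure {s})]
        exact Subgroup.commutator_mono ih le_rfl
  have k4 : ∀ j, ∀ x ∈ M.lowerCentralSeries j, cm x s ∈ M.lowerCentralSeries (j + 1) := by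
    intro j x hx
    rw [cm_eq_bracket]
    exact k3 j (Subgroup.commutator_mem_commutator (inv_mem hx)
      (inv_mem (Subgroup.subset_closure rfl)))
  exact k4 _ _ (k4 _ _ (k4 _ _ (k4 _ _ (k4 _ _ (cm_mem_lcs (cm_mem_lcs (cm_mem_lcs (n := 0)
    (cm_mem_right e m2) m2) m2) m2)))))

/-- the difference operator -/
def Dl (f : ℤ → G) : ℤ → G := fun n => (f n)⁻¹ * f (n + 1)

/-- the shift -/
def sh (G : Type*) [Group G] : MulAut (ℤ → G) where
  toFun f := fun n => f (n + 1)
  invFun f := fun n => f (n - 1)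
  left_inv f := by ext n; simp
  right_inv f := by ext n; simp
  map_mul' _ _ := rfl

theorem poly {a g : G} (hc : (⊤ : Subgroup G).lowerCentralSeries 8 = ⊥) :
    Dl^[5] (fun n : ℤ => cm (cm (cm (cm (a ^ n) g) g) g) g) = 1 := by
  let W := (ℤ → G) ⋊[MonoidHom.id (MulAut (ℤ → G))] MulAut (ℤ → G)
  let ι : (ℤ → G) →* W := SemidirectProduct.inl
  let s : W := (SemidirectProduct.inr (sh G))⁻¹
  have hs : ∀ f, cm (ι f) s = ι (Dl f) := by
    intro f
    have := SemidirectProduct.inl_aut (φ := MonoidHom.id (MulAut (ℤ → G))) (sh G) f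
    rw [map_inv] at this
    rw [cm, inv_inv, ← this, ← map_inv, ← map_mul]
    rfl
  let e : ℤ → G := fun n => a ^ n
  let c : ℤ → G := fun _ => g
  let L := Subgroup.closure ({ι e, ι c, s} : Set W)
  let e' : L := ⟨ι e, Subgroup.subset_closure (by simp)⟩
  let c' : L := ⟨ι c, Subgroup.subset_closure (by simp)⟩
  let s' : L := ⟨s, Subgroup.subset_closure (by simp)⟩
  have hT : Subgroup.closure {e', c', s'} = ⊤ := by
    rw [← Subgroup.closure_closure_coe_preimage (k := ({ι e, ι c, s} : Set W))]
    congr 1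
    ext x
    simp [Subtype.ext_iff, e', c', s']
  have d1 : Dl c = 1 := by ext n; simp [Dl, c]
  have d2 : Dl (Dl e) = 1 := by ext n; simp only [Dl, e, Pi.one_apply]; group
  have key := filt hT (Subtype.ext (by rw [coe_cm, hs, d1, map_one]; rfl))
    (Subtype.ext (by rw [coe_cm, coe_cm, hs, hs, d2, map_one]; rfl))
  have hr : ι.range.Normal := by
    rw [SemidirectProduct.range_inl_eq_ker_rightHom]; infer_instance
  have hle : (Subgroup.normalClosure {cm e' s', c'}).map L.subtype ≤ ι.range := by
    rw [Subgroup.map_le_iff_le_comap]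
    refine Subgroup.normalClosure_le_normal ?_
    rintro t (rfl | rfl)
    · exact ⟨Dl e, (hs e).symm⟩
    · exact ⟨c, rfl⟩
  have h8 : (⊤ : Subgroup (ℤ → G)).lowerCentralSeries 8 = ⊥ := by
    rw [eq_bot_iff]
    intro f hf
    rw [Subgroup.mem_bot]
    ext n
    have := Subgroup.mem_map_of_mem (Pi.evalMonoidHom (fun _ => G) n) hf
    rw [Subgroup.map_lowerCentralSeries] at this
    have k : _ ∈ (⊤ : Subgroup G).lowerCentralSeries 8 :=
      Subgroup.lowerCentralSeries_mono 8 le_top this
    rwa [hc] at k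
  have k2 := Subgroup.mem_map_of_mem L.subtype key
  rw [Subgroup.map_lowerCentralSeries] at k2
  have k3 : _ ∈ ι.range.lowerCentralSeries 8 := Subgroup.lowerCentralSeries_mono 8 hle k2
  rw [MonoidHom.range_eq_map, ← Subgroup.map_lowerCentralSeries, h8, Subgroup.map_bot,
    Subgroup.mem_bot, map_iter] at k3
  apply SemidirectProduct.inl_injective (φ := MonoidHom.id (MulAut (ℤ → G)))
  rw [map_one, ← k3]
  simp only [Function.iterate_succ, Function.iterate_zero, Function.comp, id, map_cm]
  simp only [Subgroup.subtype_apply, e', c', s', ← map_cm, hs]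
  rfl

theorem mem_of_poly {A : Subgroup G} (j : ℕ) : ∀ f : ℤ → G, Dl^[j] f = 1 →
    (∀ i : ℕ, i < j → f i ∈ A) → ∀ n, f n ∈ A := by
  induction j with
  | zero => intro f h _ n; rw [show f = 1 from h]; exact one_mem _
  | succ j ih =>
    intro f h h0 n
    have k := ih (Dl f) h fun i hi =>
      mul_mem (inv_mem (h0 i (by omega))) (by exact_mod_cast h0 (i + 1) (by omega))
    induction n using Int.induction_on with
    | zero => exact h0 0 (by omega)
    | succ n ihn => simpa [Dl] using mul_mem ihn (k n)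
    | pred n ihn => simpa [Dl] using mul_mem ihn (inv_mem (k (-n - 1)))

theorem period_of_poly {A : Subgroup G} {q : ℕ} (hq : ∀ x ∈ A, x ^ q = 1) (j : ℕ) :
    ∀ f : ℤ → G, Dl^[j] f = 1 → (∀ n, f n ∈ A) → ∀ n, f (n + (q ^ j : ℕ)) = f n := by
  induction j with
  | zero => intro f h _ n; rw [show f = 1 from h]; rfl
  | succ j ih =>
    intro f h hA
    have k := ih (Dl f) h fun n => mul_mem (inv_mem (hA n)) (hA _)
    set P : ℤ := ((q ^ j : ℕ) : ℤ) with hP
    have st : ∀ n, f (n + 1 + P) * (f (n + 1))⁻¹ = f (n + P) * (f n)⁻¹ := by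
      intro n
      have := k n
      simp only [Dl] at this
      rw [add_right_comm n 1 P, ← mul_inv_cancel_left (f (n + P)) (f (n + P + 1)), this]
      group
    have cst : ∀ n, f (n + P) * (f n)⁻¹ = f (0 + P) * (f 0)⁻¹ := by
      intro n
      induction n using Int.induction_on with
      | zero => rfl
      | succ n ihn => rw [st, ihn]
      | pred n ihn => rw [← st, sub_add_cancel, ihn]
    have pw : ∀ (m : ℕ) (n : ℤ), f (n + m * P) = (f (0 + P) * (f 0)⁻¹) ^ m * f n := by
      intro m n
      induction m with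
      | zero => simp
      | succ m ihm =>
        rw [pow_succ', mul_assoc, ← ihm, ← cst (n + m * P), inv_mul_cancel_right]
        congr 1; push_cast; ring
    intro n
    have := pw q n
    rw [hq _ (mul_mem (hA _) (inv_mem (hA _))), one_mul] at this
    rw [← this, hP]
    congr 1; push_cast; ring

theorem pow_closure {S : Set G} {q : ℕ} (h1 : ∀ x ∈ S, ∀ y ∈ S, Commute x y)
    (h2 : ∀ x ∈ S, x ^ q = 1) : ∀ x ∈ Subgroup.closure S, x ^ q = 1 := by
  have := Subgroup.isMulCommutative_closure fun x hx y hy => (h1 x hx y hy).eq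
  intro x hx
  induction hx using Subgroup.closure_induction with
  | mem x hx => exact h2 x hx
  | one => simp
  | mul x y hx hy ihx ihy =>
    have : Commute x y := congrArg Subtype.val (mul_comm' (⟨x, hx⟩ : Subgroup.closure S) ⟨y, hy⟩)
    rw [this.mul_pow, ihx, ihy, one_mul]
  | inv x _ ih => rw [inv_pow, ih, inv_one]

/-- commutators of `S` with `n` elements of `F` -/
def Wc (F S : Set G) : ℕ → Set G
  | 0 => S
  | n + 1 => Set.image2 cm (Wc F S n) F

theorem mem_ucs_of_Wc {F S : Set G} (hT : Subgroup.closure F = ⊤) {n : ℕ}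
    (h : ∀ w ∈ Wc F S n, w = 1) : S ⊆ Subgroup.upperCentralSeries G n := by
  have key : ∀ m k, k + m = n → Wc F S k ⊆ Subgroup.upperCentralSeries G m := by
    intro m
    induction m with
    | zero =>
      intro k e g hg
      rw [Subgroup.upperCentralSeries_zero]
      exact h _ (by rwa [← e])
    | succ m ih =>
      intro k e g hg
      exact mem_ucs_gen hT fun t ht => ih (k + 1) (by omega) ⟨g, hg, t, ht, rfl⟩
  exact key n 0 (zero_add n)

theorem ucs_pair {a g : G} (hT : Subgroup.closure {a, g} = ⊤) {n : ℕ}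
    (h : cm g a ∈ Subgroup.upperCentralSeries G n) :
    Subgroup.upperCentralSeries G (n + 1) = ⊤ := by
  rw [eq_top_iff, ← hT, Subgroup.closure_le]
  rintro x (rfl | rfl) <;> refine mem_ucs_gen hT ?_ <;> rintro t (rfl | rfl)
  · simp
  · rw [← cm_inv]; exact inv_mem h
  · exact h
  · simp

/-- multilinearity along the upper central series -/
theorem cm_pow_ucs {i : ℕ} {w w' x : G} {n m : ℕ}
    (hw : w ∈ Subgroup.upperCentralSeries G (i + 2))
    (h : (w ^ n)⁻¹ * w' ∈ Subgroup.upperCentralSeries G (i + 1)) :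
    (cm w x ^ (n * m))⁻¹ * cm w' (x ^ m) ∈ Subgroup.upperCentralSeries G i := by
  let π := QuotientGroup.mk' (Subgroup.upperCentralSeries G i)
  have cen : ∀ z ∈ Subgroup.upperCentralSeries G (i + 1), ∀ y : G, Commute (π z) (π y) := by
    intro z hz y
    rw [← cm_eq_one, ← map_cm]
    exact (QuotientGroup.eq_one_iff _).mpr (cm_mem_ucs hz y)
  have c := cen _ (cm_mem_ucs hw x)
  rw [map_cm] at c
  have l : ∀ k : ℕ, cm (π w ^ k) (π x) = cm (π w) (π x) ^ k := by
    intro k
    induction k with
    | zero => simp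
    | succ k ih => rw [pow_succ, cm_mul_left, ih, cj_of_comm ((c w).pow_left k), pow_succ]
  have r : ∀ k : ℕ, cm (π w ^ n) (π x ^ k) = cm (π w) (π x) ^ (n * k) := by
    intro k
    induction k with
    | zero => simp
    | succ k ih =>
      rw [pow_succ, cm_mul_right, ih, l, cj_of_comm ((c x).pow_left _), ← pow_add]
      congr 1; ring
  refine (QuotientGroup.eq_one_iff _).mp (?_ : π _ = 1)
  have e : π w' = π w ^ n * π ((w ^ n)⁻¹ * w') := by simp
  rw [map_mul, map_inv, map_pow, map_cm, map_cm, e, cm_mul_left, cm_eq_one.mpr (cen _ h _),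
    map_pow, r, ← map_cm, ← map_pow, cj_of_comm (cen _ h _).symm]
  simp

end Pool.Agent.P.MP_9682d1_al.G
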