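import Mathlib
import Pool.Agent.P.MP_9682d1_al.A.A3
import Pool.Agent.P.MP_9682d1_al.G.Poly
import Pool.Agent.P.MP_9682d1_al.KB.EN

set_option autoImplicit false

namespace Pool.Agent.P.MP_9682d1_al.G

open Pool.Agent.P.MP_9682d1_al.C

universe u

variable {G : Type*} [Group G]

theorem kb_cm (x y : G) : KB.cm x y = cm x y := rfl

theorem pow_top {a g : G} (hT : Subgroup.closure {a, g} = ⊤) (nil : Group.IsNilpotent G)
    (ha : RE 4 a) (k : ℤ) :
    cm (cm (cm (cm (a ^ (((375 ^ 5 : ℕ) : ℤ) * k)) g) g) g) g = 1 := by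
  obtain ⟨t0, t1, t2, t3, t4, t5, t6, t7, t8, t9, t10, t11, t12, t13, t14, t15, t16, t17, t18,
    t19, t20, t21, t22, t23, t24, t25, t26, t27, t28, t29, t30, t31, t32, t33, t34, t35,
    t36, t37, t38, t39, t40, t41, t42, t43, t44, t45, t46, t47, t48, t49, t50, t51, t52,
    t53, t54, t55, t56, t57, t58, t59, t60, t61, t62, t63, t64, t65, t66, t67, t68, t69,
    t70, t71, t72, t73, t74, t75, t76, t77, t78, t79, t80, t81, t82, t83, t84, t85, t86,
    t87, t88, t89, t90, t91, t92, t93, t94, t95, t96, t97, t98, t99, t100, t101, t102,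
    t103, t104, t105, t106, t107, t108, t109, t110, t111, t112, t113, t114, t115, t116,
    t117, t118, t119, t120, t121, t122, t123, t124, t125, t126, t127, p2, p3, p4, c1, c2, c3, -⟩ := KB.EN.main ⊤
    (Group.isNilpotent_top.mpr nil) a g trivial trivial fun x _ => ha x
  simp only [kb_cm, ← pow_mul, cm_eq_one] at p2 p3 p4 c1 c2 c3
  have h7 : cm g a ∈ Subgroup.upperCentralSeries G 7 := by
    refine mem_ucs_of_Wc hT (S := {cm g a}) ?_ rfl
    rintro _ ⟨_, ⟨_, ⟨_, ⟨_, ⟨_, ⟨_, ⟨_, rfl, x1, h1, rfl⟩, x2, h2, rfl⟩, x3, h3, rfl⟩, x4, h4,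
      rfl⟩, x5, h5, rfl⟩, x6, h6, rfl⟩, x7, h7, rfl⟩
    simp only [← kb_cm]
    rcases h1 with h1 | h1 <;> rcases h2 with h2 | h2 <;> rcases h3 with h3 | h3 <;>
      rcases h4 with h4 | h4 <;> rcases h5 with h5 | h5 <;> rcases h6 with h6 | h6 <;>
      rcases h7 with h7 | h7 <;> rw [h1, h2, h3, h4, h5, h6, h7] <;> with_reducible assumption
  have h8 : (⊤ : Subgroup G).lowerCentralSeries 8 = ⊥ := by
    rw [Subgroup.lowerCentralSeries_eq_bot_iff_nilpotencyClass_le,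
      ← Subgroup.upperCentralSeries_eq_top_iff_nilpotencyClass_le]
    exact ucs_pair hT h7
  set f : ℤ → G := fun n => cm (cm (cm (cm (a ^ n) g) g) g) g with hf
  have hp : Dl^[5] f = 1 := poly h8
  let S : Set G := {cm (cm (cm (cm (a ^ 2) g) g) g) g, cm (cm (cm (cm (a ^ 3) g) g) g) g,
    cm (cm (cm (cm (a ^ 4) g) g) g) g}
  have hq : ∀ x ∈ Subgroup.closure S, x ^ 375 = 1 := by
    refine pow_closure ?_ ?_
    · rintro x (rfl | rfl | rfl) y (rfl | rfl | rfl)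
      exacts [Commute.refl _, c1, c2, c1.symm, Commute.refl _, c3, c2.symm, c3.symm,
        Commute.refl _]
    · rintro x (rfl | rfl | rfl)
      exacts [p2, p3, p4]
  have f0 : f 0 = 1 := by simp [hf]
  have hA : ∀ n, f n ∈ Subgroup.closure S := by
    refine mem_of_poly 5 f hp fun i hi => ?_
    simp only [hf, zpow_natCast]
    interval_cases i
    · simp
    · rw [pow_one, show cm (cm (cm (cm a g) g) g) g = 1 from ha g]; exact one_mem _
    all_goals exact Subgroup.subset_closure (by simp [S])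
  have per := period_of_poly hq 5 f hp hA
  show f _ = 1
  induction k using Int.induction_on with
  | zero => rw [mul_zero, f0]
  | succ k ih => rw [mul_add, mul_one, per, ih]
  | pred k ih => rw [← per, mul_sub, mul_one, sub_add_cancel, ih]

theorem closure_pair (a g : G) :
    Subgroup.closure ({⟨a, Subgroup.subset_closure (by simp)⟩,
      ⟨g, Subgroup.subset_closure (by simp)⟩} : Set (Subgroup.closure ({a, g} : Set G))) = ⊤ :=
  A.closure_pair_top a g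

/-- the powers of `a ^ (375 ^ 5)` are right 4-Engel. -/
theorem re4_zpow {G : Type u} [Group G] {a : G} (ha : RE 4 a) (k : ℤ) :
    RE 4 ((a ^ (375 ^ 5)) ^ k) := by
  intro g
  have := congrArg Subtype.val (pow_top (closure_pair a g) (A.A0 G a g ha)
    (RE.of_map (Subgroup.subtype_injective _) ha) k)
  rw [← zpow_natCast, ← zpow_mul]
  exact this

theorem pair_top {u v : G} (hT : Subgroup.closure {u, v} = ⊤)
    (h5 : ∀ x ∈ ({u, v} : Set G), ∀ y ∈ ({u, v} : Set G), ∀ z ∈ ({u, v} : Set G),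
      cm (cm (cm (cm v u) x) y) z = 1)
    (h6 : ∀ p ∈ ({u, v} : Set G), ∀ q ∈ ({u, v} : Set G), ∀ x ∈ ({u, v} : Set G),
      ∀ y ∈ ({u, v} : Set G), cm (cm (cm p q) x) y ^ 60 = 1) : Cl3 ({u ^ 30, v ^ 30} : Set G) := by
  have h3 : cm v u ∈ Subgroup.upperCentralSeries G 3 := by
    refine mem_ucs_of_Wc hT (S := {cm v u}) ?_ rfl
    rintro _ ⟨_, ⟨_, ⟨_, rfl, x, hx, rfl⟩, y, hy, rfl⟩, z, hz, rfl⟩
    exact h5 x hx y hy z hz
  have h4 : ∀ p : G, p ∈ Subgroup.upperCentralSeries G 4 := fun p => by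
    rw [ucs_pair hT h3]; trivial
  have key : ∀ p q x y : G, cm (cm (cm p q) x) y ^ 60 = 1 →
      cm (cm (cm (p ^ 30) (q ^ 30)) (x ^ 30)) (y ^ 30) = 1 := by
    intro p q x y h
    have := cm_pow_ucs (x := y) (m := 30) (cm_mem_ucs (cm_mem_ucs (h4 p) q) x)
      (cm_pow_ucs (x := x) (m := 30) (cm_mem_ucs (h4 p) q)
        (cm_pow_ucs (x := q) (m := 30) (n := 30) (w' := p ^ 30) (h4 p) (by simp)))
    rw [show 30 * 30 * 30 * 30 = 60 * 13500 by norm_num, pow_mul, h] at this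
    simpa using this
  have e : ∀ t ∈ ({u ^ 30, v ^ 30} : Set G), ∃ s ∈ ({u, v} : Set G), t = s ^ 30 := by
    rintro t (rfl | rfl)
    exacts [⟨u, by simp, rfl⟩, ⟨v, by simp, rfl⟩]
  intro p hp q hq x hx y hy
  obtain ⟨p, kp, rfl⟩ := e p hp
  obtain ⟨q, kq, rfl⟩ := e q hq
  obtain ⟨x, kx, rfl⟩ := e x hx
  obtain ⟨y, ky, rfl⟩ := e y hy
  exact key p q x y (h6 p kp q kq x kx y ky)

theorem pair_cl3 {u v : G}
    (h5 : ∀ x ∈ ({u, v} : Set G), ∀ y ∈ ({u, v} : Set G), ∀ z ∈ ({u, v} : Set G),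
      cm (cm (cm (cm v u) x) y) z = 1)
    (h6 : ∀ p ∈ ({u, v} : Set G), ∀ q ∈ ({u, v} : Set G), ∀ x ∈ ({u, v} : Set G),
      ∀ y ∈ ({u, v} : Set G), cm (cm (cm p q) x) y ^ 60 = 1) : Cl3 ({u ^ 30, v ^ 30} : Set G) := by
  set K := Subgroup.closure ({u, v} : Set G)
  let u' : K := ⟨u, Subgroup.subset_closure (by simp)⟩
  let v' : K := ⟨v, Subgroup.subset_closure (by simp)⟩
  have e : ∀ t ∈ ({u', v'} : Set K), (t : G) ∈ ({u, v} : Set G) := by
    rintro t (rfl | rfl) <;> simp [u', v']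
  have := pair_top (u := u') (v := v') (closure_pair u v)
    (fun x hx y hy z hz => Subtype.ext (h5 _ (e x hx) _ (e y hy) _ (e z hz)))
    (fun p hp q hq x hx y hy => Subtype.ext (h6 _ (e p hp) _ (e q hq) _ (e x hx) _ (e y hy)))
  have e' : ∀ t ∈ ({u ^ 30, v ^ 30} : Set G), ∃ s ∈ ({u' ^ 30, v' ^ 30} : Set K), t = s := by
    rintro t (rfl | rfl)
    exacts [⟨u' ^ 30, by simp, rfl⟩, ⟨v' ^ 30, by simp, rfl⟩]
  intro p hp q hq x hx y hy
  obtain ⟨p, kp, rfl⟩ := e' p hp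
  obtain ⟨q, kq, rfl⟩ := e' q hq
  obtain ⟨x, kx, rfl⟩ := e' x hx
  obtain ⟨y, ky, rfl⟩ := e' y hy
  exact congrArg Subtype.val (this p kp q kq x kx y ky)

/-- two conjugates of a right 4-Engel element: class at most 4, and the 60-th powers of the
weight 4 commutators vanish. -/
theorem pair_laws {G : Type u} [Group G] {a : G} (ha : RE 4 a) (g : G) :
    (∀ x ∈ ({a, g⁻¹ * a * g} : Set G), ∀ y ∈ ({a, g⁻¹ * a * g} : Set G),
      ∀ z ∈ ({a, g⁻¹ * a * g} : Set G), cm (cm (cm (cm (g⁻¹ * a * g) a) x) y) z = 1) ∧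
    ∀ p ∈ ({a, g⁻¹ * a * g} : Set G), ∀ q ∈ ({a, g⁻¹ * a * g} : Set G),
      ∀ x ∈ ({a, g⁻¹ * a * g} : Set G), ∀ y ∈ ({a, g⁻¹ * a * g} : Set G),
        cm (cm (cm p q) x) y ^ 60 = 1 := by
  obtain ⟨-, -, -, -, -, -, -, -, -, -, -, -, -, -, -, -, -, -, -, -, -, -, -, -, -, -, -, -, -,
    -, -, -, -, -, -, -, -, -, -, -, -, -, -, -, -, -, -, -, -, -, -, -, -, -, -, -, -, -,
    -, -, -, -, -, -, -, -, -, -, -, -, -, -, -, -, -, -, -, -, -, -, -, -, -, -, -, -, -,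
    -, -, -, -, -, -, -, -, -, -, -, -, -, -, -, -, -, -, -, -, -, -, -, -, -, -, -, -, -,
    -, -, -, -, -, -, -, -, -, -, -, -, -, -, -, -, -, -, r1, r2, r3, r4, r5, r6, r7, r8,
    s1, s2, s3, s4, s5, s6, s7, s8⟩ := KB.EN.main _ (A.A0 G a g ha) a g
    (Subgroup.subset_closure (by simp)) (Subgroup.subset_closure (by simp)) fun x _ => ha x
  simp only [kb_cm, ← pow_mul, KB.cj] at r1 r2 r3 r4 r5 r6 r7 r8 s1 s2 s3 s4 s5 s6 s7 s8
  generalize g⁻¹ * a * g = b at *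
  constructor
  · rintro x (rfl | rfl) y (rfl | rfl) z (rfl | rfl) <;> assumption
  · rintro p (rfl | rfl) q (rfl | rfl) x (rfl | rfl) y (rfl | rfl) <;> first | assumption | simp

/-- two conjugates of `a ^ 30` generate a group of class at most 3. -/
theorem cl3_pow {G : Type u} [Group G] {a : G} (ha : RE 4 a) {u v : G} (hu : u ∈ cls (a ^ 30))
    (hv : v ∈ cls (a ^ 30)) : Cl3 ({u, v} : Set G) := by
  obtain ⟨g, rfl⟩ := exists_cj_of_cls hu hv
  obtain ⟨k, rfl⟩ := hu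
  rw [← B3.cj_pow, ← B3.cj_pow]
  exact pair_cl3 (pair_laws (ha.cj k) g).1 (pair_laws (ha.cj k) g).2

end Pool.Agent.P.MP_9682d1_al.G
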