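import Mathlib
import Pool.Agent.P.MP_9682d1_al.A.A3
import Pool.Agent.P.MP_9682d1_al.G.Semi
import Pool.Agent.P.MP_9682d1_al.KB.Z15

set_option autoImplicit false

namespace Pool.Agent.P.MP_9682d1_al.G

open Pool.Agent.P.MP_9682d1_al.C

universe u

variable {G : Type*} [Group G]

theorem eq_one_of_coprime {x : G} {m n : ℕ} (h : Nat.Coprime m n) (h1 : x ^ m = 1)
    (h2 : x ^ n = 1) : x = 1 :=
  orderOf_eq_one_iff.mp (Nat.eq_one_of_dvd_coprimes h (orderOf_dvd_of_pow_eq_one h1)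
    (orderOf_dvd_of_pow_eq_one h2))

theorem tors_closure [Group.IsNilpotent G] {x : G} {m : ℕ} (h : x ^ m = 1) {u : G}
    (hu : u ∈ Subgroup.closure (cls x)) : ∃ s : ℕ, u ^ (m ^ s) = 1 :=
  A.isol_sub m (cls x) inferInstance ⊥ (fun y hy => ⟨1, 1, one_mem _, one_mem _, 1, one_mem _, by
    rw [pow_one, B3.cls_pow h hy, one_mul]⟩) u hu

theorem split_top [Group.IsNilpotent G] {x y g : G} {m n : ℕ} (hco : Nat.Coprime m n)
    (hx : x ^ m = 1) (hy : y ^ n = 1) (h : cm (cm (cm (cm (x * y) g) g) g) g = 1) :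
    cm (cm (cm (cm x g) g) g) g = 1 := by
  have nx := (cj_cls x).normal
  have ny := (cj_cls y).normal
  have dis : ∀ w ∈ Subgroup.closure (cls x), w ∈ Subgroup.closure (cls y) → w = 1 := by
    intro w h1 h2
    obtain ⟨s, hs⟩ := tors_closure hx h1
    obtain ⟨t, ht⟩ := tors_closure hy h2
    exact eq_one_of_coprime (Nat.Coprime.pow s t hco) hs ht
  have mul : ∀ u ∈ Subgroup.closure (cls x), ∀ v ∈ Subgroup.closure (cls y),
      cm (u * v) g = cm u g * cm v g := by
    intro u hu v hv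
    rw [cm_mul_left, cj_of_comm (cm_eq_one.mp (dis _ (cm_mem_left (cm_mem_left hu g) v)
      (cm_mem_right _ hv)))]
  have x0 : x ∈ Subgroup.closure (cls x) := Subgroup.subset_closure (self_mem_cls x)
  have y0 : y ∈ Subgroup.closure (cls y) := Subgroup.subset_closure (self_mem_cls y)
  have x1 := cm_mem_left x0 g
  have y1 := cm_mem_left y0 g
  have x2 := cm_mem_left x1 g
  have y2 := cm_mem_left y1 g
  have x3 := cm_mem_left x2 g
  have y3 := cm_mem_left y2 g
  rw [mul _ x0 _ y0, mul _ x1 _ y1, mul _ x2 _ y2, mul _ x3 _ y3, mul_eq_one_iff_eq_inv] at h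
  exact dis _ (cm_mem_left x3 g) (by rw [h]; exact inv_mem (cm_mem_left y3 g))

/-- the primary components of a right 4-Engel element are right 4-Engel. -/
theorem re4_split {G : Type u} [Group G] {a : G} (ha : RE 4 a) {i j : ℤ} {m n : ℕ}
    (hco : Nat.Coprime m n) (e : i + j = 1) (hx : (a ^ i) ^ m = 1) (hy : (a ^ j) ^ n = 1) :
    RE 4 (a ^ i) := by
  intro g
  have nil := A.A0 G a g ha
  let a' : Subgroup.closure ({a, g} : Set G) := ⟨a, Subgroup.subset_closure (by simp)⟩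
  let g' : Subgroup.closure ({a, g} : Set G) := ⟨g, Subgroup.subset_closure (by simp)⟩
  exact congrArg Subtype.val (split_top (x := a' ^ i) (y := a' ^ j) (g := g') hco
    (Subtype.ext hx) (Subtype.ext hy) (by
      rw [← zpow_add, e, zpow_one]; exact Subtype.ext (ha g)))

theorem eq_one_split {G : Type u} [Group G] {a : G} (ha : RE 4 a) {m n : ℕ}
    (hco : Nat.Coprime m n) (h : a ^ (m * n) = 1) (Hm : ∀ x : G, RE 4 x → x ^ m = 1 → x = 1)
    (Hn : ∀ x : G, RE 4 x → x ^ n = 1 → x = 1) : a = 1 := by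
  obtain ⟨i, j, e⟩ := Nat.isCoprime_iff_coprime.mpr hco
  have h' : a ^ ((m : ℤ) * n) = 1 := by exact_mod_cast h
  have hx : (a ^ (j * n)) ^ m = 1 := by
    rw [← zpow_natCast, ← zpow_mul, show j * n * m = m * n * j by ring, zpow_mul, h', one_zpow]
  have hy : (a ^ (i * m)) ^ n = 1 := by
    rw [← zpow_natCast, ← zpow_mul, show i * m * n = m * n * i by ring, zpow_mul, h', one_zpow]
  rw [← zpow_one a, ← e, zpow_add, Hm _ (re4_split ha hco (by rw [add_comm, e]) hx hy) hx,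
    Hn _ (re4_split ha hco.symm e hy hx) hy, one_mul]

theorem three_pow {G : Type u} [Group G] (h0 : HP G = ⊥) (e : ℕ) (a : G) (ha : RE 4 a)
    (h : a ^ (3 ^ e) = 1) : a = 1 := by
  rw [← Subgroup.mem_bot, ← h0]
  exact A.hp_three_pow e G a ha h

theorem z5 {h z : G} (hh : RE 4 h) (hz : z ^ 5 = 1) (c : Commute z (h⁻¹ * z * h)) :
    Commute z (h ^ 5) := by
  refine cm_eq_one.mp (KB.Z15.main h z (cm_eq_one.mpr ?_) hz hh)
  have e : KB.cm h z = (h⁻¹ * z * h)⁻¹ * z := by unfold KB.cm; group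
  rw [e]
  exact c.symm.inv_left.mul_left (Commute.refl z)

theorem five_step (h0 : HP G = ⊥) {a : G} {m : ℕ} (ha : RE 4 a) (hm : a ^ (5 * m * 5) = 1) :
    a ^ (5 * m) = 1 := by
  have p5 : ∀ v ∈ cls a, (v ^ (5 * m)) ^ 5 = 1 := fun v hv => by
    rw [← pow_mul]; exact B3.cls_pow hm hv
  have k1 : ∀ u ∈ cls a, ∀ v ∈ cls a,
      Commute (v ^ (5 * m)) (A.cj (v ^ (5 * m)) (A.cj v u)) := by
    intro u hu v hv
    obtain ⟨c1, c2⟩ := A.class_two (ha.cls hu) v
    have e : A.cm v (A.cj v (A.cj v u)) ^ (5 * m * 5) = 1 := by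
      rw [← A.cm_pow_left c1, B3.cls_pow hm hv]; simp [A.cm]
    rw [← A.cm_eq_one, A.cj_pow, A.cm_pow_right, A.cm_pow_left c1, ← pow_mul,
      show 5 * m * (5 * m) = 5 * m * 5 * m by ring, pow_mul, e, one_pow]
    rw [A.cm_pow_left c1]
    exact c2.pow_left _
  have k2 : ∀ u ∈ cls a, ∀ v ∈ cls a, Commute (v ^ (5 * m)) (u⁻¹ * v ^ (5 * m) * u) := by
    intro u hu v hv
    rw [← B3.cj_pow, pow_mul (u⁻¹ * v * u)]
    exact (z5 (ha.cls (cj_cls a v hv u)) (p5 v hv) (k1 u hu v hv)).pow_right m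
  refine eq_one_of_cj h0 fun g => ?_
  rw [← B3.cj_pow, pow_mul (g⁻¹ * a * g)]
  exact (z5 (ha.cj g) (p5 a (self_mem_cls a)) (k2 _ (cj_mem_cls a g) a (self_mem_cls a))).pow_right m

theorem five_pow (h0 : HP G = ⊥) (S5 : ∀ a : G, RE 4 a → a ^ 5 = 1 → a = 1) (e : ℕ) (a : G)
    (ha : RE 4 a) (h : a ^ (5 ^ e) = 1) : a = 1 := by
  induction e with
  | zero => simpa using h
  | succ e ih =>
    cases e with
    | zero => exact S5 a ha (by simpa using h)
    | succ e =>
      apply ih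
      rw [pow_succ' 5 e]
      exact five_step h0 ha (by rw [← pow_succ' 5 e, ← pow_succ]; exact h)

/-- no `q`-torsion in the normal closure, if right 4-Engel `q`-elements lie in `HP`. -/
theorem tf (q : ℕ) (T : ∀ (G : Type u) [Group G] (a : G) (k : ℕ), RE 4 a → a ^ (q ^ k) = 1 →
      a ∈ HP G) {G : Type u} [Group G] (h0 : HP G = ⊥) {a : G} (ha : RE 4 a) {x : G}
    (hx : x ∈ Subgroup.closure (cls a)) (hq : x ^ q = 1) : x = 1 := by
  obtain ⟨k, hk⟩ : ∃ k : ℕ, ∀ g : G, Commute x ((g⁻¹ * a * g) ^ (q ^ k)) := by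
    have nil := A.A0 (G → G) (fun g => g⁻¹ * a * g) (fun _ => x) fun y => funext fun g =>
      (map_iter (Pi.evalMonoidHom (fun _ => G) g) y 4 _).trans ((ha.cj g).iter _)
    rw [Set.pair_comm] at nil
    obtain ⟨k, hk⟩ := A.commute_pow_sub q nil (e := 1) (by ext g; simpa using hq)
    exact ⟨k, fun g => hk.map (Pi.evalMonoidHom (fun _ => G) g)⟩
  set K := Subgroup.closure (cls (a ^ (q ^ k))) with hK
  have nK : K.Normal := (cj_cls _).normal
  have nN := (cj_cls a).normal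
  let D := Subgroup.closure (cls a) ⊓ Subgroup.centralizer (K : Set G)
  let π := QuotientGroup.mk' K
  have hs := QuotientGroup.mk'_surjective K
  have inj : Function.Injective (π.comp D.subtype) := by
    rw [injective_iff_map_eq_one]
    intro z hz
    exact Subtype.ext (eq_one_of_central h0 (cj_cls _) ((QuotientGroup.eq_one_iff _).mp hz)
      fun y hy => (z.2.2 y (Subgroup.subset_closure hy)).symm)
  have ha' : π a ∈ HP (G ⧸ K) := T _ _ k (ha.map hs) (by
    rw [← map_pow]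
    exact (QuotientGroup.eq_one_iff _).mpr (Subgroup.subset_closure (self_mem_cls _)))
  have hle : Subgroup.closure (cls a) ≤ (HP (G ⧸ K)).comap π := by
    rw [Subgroup.closure_le]
    exact cls_sub (cj_normal _) ha'
  refine eq_one_of_ln h0 (cj_normal D) (((HP_ln.preimage inj).image D.subtype).mono
    fun z hz => ⟨⟨z, hz⟩, hle hz.1, rfl⟩) ⟨hx, ?_⟩
  rw [hK, Subgroup.centralizer_closure]
  rintro _ ⟨g, rfl⟩
  rw [← B3.cj_pow]
  exact (hk g).symm.eq

end Pool.Agent.P.MP_9682d1_al.G
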