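import Mathlib
import Pool.Agent.P.MP_9682d1_al.G.Pow
import Pool.Agent.P.MP_9682d1_al.G.Tors

set_option autoImplicit false

namespace Pool.Agent.P.MP_9682d1_al.G

open Pool.Agent.P.MP_9682d1_al.C

universe u

/-- right 4-Engel elements of order dividing `p` lie in `HP`. -/
def Sp (p : ℕ) : Prop :=
  ∀ (G : Type u) [Group G] (a : G), RE 4 a → a ^ p = 1 → a ∈ HP G

/-- the generic case. -/
def Sgen : Prop :=
  ∀ (G : Type u) [Group G] (a : G), HP G = ⊥ → (∀ n : ℤ, RE 4 (a ^ n)) →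
    (∀ u ∈ cls a, ∀ v ∈ cls a, Cl3 ({u, v} : Set G)) →
    (∀ x ∈ Subgroup.closure (cls a), x ^ 6 = 1 → x = 1) → a = 1

theorem Sp.eq_one {p : ℕ} (h : Sp.{u} p) {G : Type u} [Group G] (h0 : HP G = ⊥) (a : G)
    (ha : RE 4 a) (hp : a ^ p = 1) : a = 1 := by
  rw [← Subgroup.mem_bot, ← h0]
  exact h G a ha hp

theorem two_pow (S2 : Sp.{u} 2) {G : Type u} [Group G] (h0 : HP G = ⊥) (e : ℕ) (a : G)
    (ha : RE 4 a) (h : a ^ (2 ^ e) = 1) : a = 1 := by
  have hb := re4_zpow ha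
  have k : ∀ e : ℕ, (a ^ (375 ^ 5)) ^ (2 ^ e) = 1 → a ^ (375 ^ 5) = 1 := by
    intro e
    induction e with
    | zero => simp
    | succ e ih =>
      intro h
      refine ih (S2.eq_one h0 _ ?_ (by rw [← pow_mul, ← pow_succ, h]))
      rw [← zpow_natCast]
      exact hb _
  refine eq_one_of_coprime (Nat.Coprime.pow e 5 (by norm_num : Nat.Coprime 2 375)) h (k e ?_)
  rw [← pow_mul, mul_comm, pow_mul, h, one_pow]

theorem six_pow (S2 : Sp.{u} 2) {G : Type u} [Group G] (h0 : HP G = ⊥) (e : ℕ) (a : G)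
    (ha : RE 4 a) (h : a ^ (6 ^ e) = 1) : a = 1 :=
  eq_one_split ha (Nat.Coprime.pow e e (by norm_num : Nat.Coprime 2 3))
    (by rw [← mul_pow]; exact h) (two_pow S2 h0 e) (three_pow h0 e)

theorem hp_six (S2 : Sp.{u} 2) (G : Type u) [Group G] (a : G) (e : ℕ) (ha : RE 4 a)
    (h : a ^ (6 ^ e) = 1) : a ∈ HP G :=
  RE.hp_of_semi ha fun _ _ φ hφ h0 => six_pow S2 h0 e _ (ha.map hφ) (by
    rw [← map_pow, h, map_one])

/-- no elements of order 2 or 3 in the normal closure. -/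
theorem tf_six (S2 : Sp.{u} 2) {G : Type u} [Group G] (h0 : HP G = ⊥) {a : G} (ha : RE 4 a) :
    ∀ x ∈ Subgroup.closure (cls a), x ^ 6 = 1 → x = 1 :=
  fun _ hx h => tf 6 (hp_six S2) h0 ha hx h

/-- every right 4-Engel element lies in the Hirsch-Plotkin radical. -/
theorem hp_four (S2 : Sp.{u} 2) (S5 : Sp.{u} 5) (SG : Sgen.{u}) (G : Type u) [Group G] (a : G)
    (ha : RE 4 a) : a ∈ HP G := by
  refine RE.hp_of_semi ha fun Q _ φ hφ h0 => ?_
  have hb := ha.map hφ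
  generalize φ a = b at hb
  have hz := re4_zpow hb
  have h1 : RE 4 (b ^ (375 ^ 5)) := by simpa using hz 1
  have hc : ∀ n : ℤ, RE 4 (((b ^ (375 ^ 5)) ^ 30) ^ n) := fun n => by
    rw [← zpow_natCast _ 30, ← zpow_mul]; exact hz _
  have := SG Q _ h0 hc (fun u hu v hv => cl3_pow h1 hu hv)
    (tf_six S2 h0 (by simpa using hc 1))
  rw [← pow_mul] at this
  refine eq_one_split hb (Nat.Coprime.pow 6 16 (by norm_num : Nat.Coprime 6 5)) ?_
    (six_pow S2 h0 6) (five_pow h0 (S5.eq_one h0) 16)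
  rw [show 6 ^ 6 * 5 ^ 16 = 375 ^ 5 * 30 * 32 by norm_num, pow_mul, this, one_pow]

end Pool.Agent.P.MP_9682d1_al.G
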