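import Mathlib
import Pool.Agent.P.MP_9682d1_al.G.Top
import Pool.Agent.P.MP_9682d1_al.T.Defs
import Pool.Agent.P.MP_9682d1_al.T4.Lattice

set_option autoImplicit false

namespace Pool.Agent.P.MP_9682d1_al.G

open Pool.Agent.P.MP_9682d1_al.C

universe u

/-- the three laws needed by the lattice step -/
def Fgen : Prop :=
  ∀ (G : Type u) [Group G] (X : Set G), T.Gd X → ∀ a ∈ X, ∀ b ∈ X, P2 a b → ∀ c ∈ X,
    cm (cm c (cm a b)) (cm a b) = 1 ∧ cm (cm (cm c (cm a b)) c) c = 1 ∧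
      cm (cm (cm c (cm a b)) c) (cm a b) = 1

/-- powers of conjugates -/
def pcls {G : Type u} [Group G] (a : G) : Set G := {y | ∃ x ∈ cls a, ∃ n : ℤ, y = x ^ n}

theorem gd_pcls {G : Type u} [Group G] {a : G} (re : ∀ n : ℤ, RE 4 (a ^ n))
    (cl : ∀ u ∈ cls a, ∀ v ∈ cls a, Cl3 ({u, v} : Set G))
    (tf : ∀ x ∈ Subgroup.closure (cls a), x ^ 6 = 1 → x = 1) : T.Gd (pcls a) := by
  refine ⟨?_, ?_, ?_, ?_, ?_⟩
  · rintro _ ⟨_, ⟨k, rfl⟩, n, rfl⟩ g
    refine ⟨(k * g)⁻¹ * a * (k * g), ⟨k * g, rfl⟩, n, ?_⟩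
    have := map_zpow (MulAut.conj g⁻¹) (k⁻¹ * a * k) n
    simp only [MulAut.conj_apply, inv_inv] at this
    rw [this]
    congr 1
    group
  · rintro _ ⟨x, hx, n, rfl⟩ m
    exact ⟨x, hx, n * m, by rw [zpow_mul]⟩
  · rintro _ ⟨_, ⟨k, rfl⟩, n, rfl⟩
    have e := map_zpow (MulAut.conj k⁻¹) a n
    simp only [MulAut.conj_apply, inv_inv] at e
    rw [← e]
    exact (re n).cj k
  · rintro _ ⟨x, hx, n, rfl⟩ _ ⟨y, hy, m, rfl⟩
    refine (cl x hx y hy).closure.mono ?_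
    rintro t (rfl | rfl)
    · exact Subgroup.zpow_mem _ (Subgroup.subset_closure (by simp)) _
    · exact Subgroup.zpow_mem _ (Subgroup.subset_closure (by simp)) _
  · intro x hx
    refine tf x ((Subgroup.closure_le _).mpr ?_ hx)
    rintro _ ⟨y, hy, n, rfl⟩
    exact Subgroup.zpow_mem _ (Subgroup.subset_closure hy) _

theorem sgen_of_fgen (h : Fgen.{u}) : Sgen.{u} := by
  intro G _ a hp re cl tf
  have g := gd_pcls re cl tf
  exact T4.lattice hp g.cj g.pw g.cl g.tf (h G _ g) a ⟨a, self_mem_cls a, 1, by simp⟩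

end Pool.Agent.P.MP_9682d1_al.G
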